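import Mathlib

set_option autoImplicit false

/-!
# The value `hurwitzZetaOdd a 1 = (π/2) cot (π a)`
-/

namespace Pool.Agent.Helper52.Fermat

open Finset Filter HurwitzZeta
open scoped Real Topology

/-- the terms of the series of the odd Hurwitz zeta function, real exponent -/
noncomputable def ft (a s : ℝ) (n : ℕ) : ℝ := (1 / (n + a) ^ s - 1 / (n + 1 - a) ^ s) / 2

/-- the dominating series -/
noncomputable def bd (a : ℝ) (n : ℕ) : ℝ :=
  (if n = 0 then (1 / a ^ (2 : ℝ) + 1 / (1 - a) ^ (2 : ℝ)) else 0) + 2 * (1 / (n : ℝ) ^ 2)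

lemma bd_summable (a : ℝ) : Summable (bd a) :=
  (hasSum_ite_eq 0 (1 / a ^ (2 : ℝ) + 1 / (1 - a) ^ (2 : ℝ))).summable.add
    ((Real.summable_one_div_nat_pow.2 (by norm_num : 1 < 2)).mul_left 2)

lemma diff_le {s : ℝ} (h1 : 1 ≤ s) (h2 : s ≤ 2) {n : ℕ} (hn : n ≠ 0) :
    1 / (n : ℝ) ^ s - 1 / ((n : ℝ) + 1) ^ s ≤ 2 * (1 / (n : ℝ) ^ 2) := by
  have hn1 : (1 : ℝ) ≤ n := by exact_mod_cast Nat.one_le_iff_ne_zero.2 hn
  have hn0 : (0 : ℝ) < n := by linarith
  have e1 : 1 / ((n : ℝ) + 1) ^ s = (1 / (n : ℝ) ^ s) * ((n : ℝ) / (n + 1)) ^ s := by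
    rw [Real.div_rpow hn0.le (by linarith)]
    have : (n : ℝ) ^ s ≠ 0 := (Real.rpow_pos_of_pos hn0 s).ne'
    field_simp
  have e2 : ((n : ℝ) / (n + 1)) ^ (2 : ℝ) ≤ ((n : ℝ) / (n + 1)) ^ s := by
    apply Real.rpow_le_rpow_of_exponent_ge (by positivity) _ h2
    rw [div_le_one (by linarith)]; linarith
  have e3 : 1 / (n : ℝ) ^ s ≤ 1 / n := by
    apply one_div_le_one_div_of_le hn0
    calc (n : ℝ) = (n : ℝ) ^ (1 : ℝ) := (Real.rpow_one _).symm
      _ ≤ (n : ℝ) ^ s := Real.rpow_le_rpow_of_exponent_le hn1 h1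
  have e4 : (0 : ℝ) ≤ 1 / (n : ℝ) ^ s := by positivity
  have e5 : ((n : ℝ) / (n + 1)) ^ (2 : ℝ) = ((n : ℝ) / (n + 1)) ^ 2 := by
    rw [← Real.rpow_natCast]; norm_num
  rw [e5] at e2
  have e6 : ((n : ℝ) / (n + 1)) ^ 2 ≤ 1 := by
    apply pow_le_one₀ (by positivity)
    rw [div_le_one (by linarith)]; linarith
  calc 1 / (n : ℝ) ^ s - 1 / ((n : ℝ) + 1) ^ s
      = (1 / (n : ℝ) ^ s) * (1 - ((n : ℝ) / (n + 1)) ^ s) := by rw [e1]; ring
    _ ≤ (1 / (n : ℝ) ^ s) * (1 - ((n : ℝ) / (n + 1)) ^ 2) := by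
        apply mul_le_mul_of_nonneg_left _ e4; linarith
    _ ≤ (1 / (n : ℝ)) * (1 - ((n : ℝ) / (n + 1)) ^ 2) := by
        apply mul_le_mul_of_nonneg_right e3; linarith
    _ ≤ 2 * (1 / (n : ℝ) ^ 2) := by
        have : 1 - ((n : ℝ) / (n + 1)) ^ 2 = (2 * n + 1) / (n + 1) ^ 2 := by
          field_simp; ring
        rw [this, div_mul_div_comm, mul_one_div, div_le_div_iff₀ (by positivity) (by positivity)]
        nlinarith [sq_nonneg (n : ℝ), mul_pos hn0 hn0, mul_pos (mul_pos hn0 hn0) hn0]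

lemma ft_le {a s : ℝ} (ha : 0 < a) (ha' : a < 1) (h1 : 1 ≤ s) (h2 : s ≤ 2) (n : ℕ) :
    |ft a s n| ≤ bd a n := by
  by_cases hn : n = 0
  · subst hn
    have e1 : 1 / a ^ s ≤ 1 / a ^ (2 : ℝ) := by
      apply one_div_le_one_div_of_le (Real.rpow_pos_of_pos ha _)
      exact Real.rpow_le_rpow_of_exponent_ge ha ha'.le h2
    have e2 : 1 / (1 - a) ^ s ≤ 1 / (1 - a) ^ (2 : ℝ) := by
      apply one_div_le_one_div_of_le (Real.rpow_pos_of_pos (by linarith) _)
      exact Real.rpow_le_rpow_of_exponent_ge (by linarith) (by linarith) h2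
    have e3 : 0 < 1 / a ^ s := by
      have := Real.rpow_pos_of_pos ha s
      positivity
    have e4 : 0 < 1 / (1 - a) ^ s := by
      have := Real.rpow_pos_of_pos (show 0 < 1 - a by linarith) s
      positivity
    have e5 : (2 : ℝ) * (1 / (((0 : ℕ) : ℝ)) ^ 2) = 0 := by norm_num
    rw [ft, bd, if_pos rfl, e5, Nat.cast_zero, zero_add, zero_add, add_zero, abs_le]
    constructor <;> linarith
  · have hn1 : (1 : ℝ) ≤ n := by exact_mod_cast Nat.one_le_iff_ne_zero.2 hn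
    have hn0 : (0 : ℝ) < n := by linarith
    have hs : 0 ≤ s := by linarith
    have key : ∀ x : ℝ, (n : ℝ) ≤ x → x ≤ n + 1 →
        1 / ((n : ℝ) + 1) ^ s ≤ 1 / x ^ s ∧ 1 / x ^ s ≤ 1 / (n : ℝ) ^ s := by
      intro x hx hx'
      have hx0 : 0 < x := by linarith
      constructor
      · apply one_div_le_one_div_of_le (Real.rpow_pos_of_pos hx0 _)
        exact Real.rpow_le_rpow hx0.le hx' hs
      · apply one_div_le_one_div_of_le (Real.rpow_pos_of_pos hn0 _)
        exact Real.rpow_le_rpow hn0.le hx hs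
    have k1 := key (n + a) (by linarith) (by linarith)
    have k2 := key (n + 1 - a) (by linarith) (by linarith)
    have k3 := diff_le h1 h2 hn
    have k4 : 0 ≤ 2 * (1 / (n : ℝ) ^ 2) := by positivity
    simp only [ft, bd, if_neg hn, zero_add]
    rw [abs_le]
    constructor <;> linarith [k1.1, k1.2, k2.1, k2.2]

lemma ft_cast {a s : ℝ} (ha : 0 < a) (ha' : a < 1) (n : ℕ) :
    ((ft a s n : ℝ) : ℂ) = (1 / (n + a : ℂ) ^ (s : ℂ) - 1 / (n + 1 - a : ℂ) ^ (s : ℂ)) / 2 := by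
  have h1 : (0 : ℝ) ≤ n + a := by positivity
  have h2 : (0 : ℝ) ≤ n + 1 - a := by
    have : (0 : ℝ) ≤ n := Nat.cast_nonneg n
    linarith
  have e1 : (n + a : ℂ) = ((n + a : ℝ) : ℂ) := by push_cast; rfl
  have e2 : (n + 1 - a : ℂ) = ((n + 1 - a : ℝ) : ℂ) := by push_cast; rfl
  rw [e1, e2, ← Complex.ofReal_cpow h1, ← Complex.ofReal_cpow h2, ft]
  push_cast
  rfl

/-- the value at `1` as a series -/
lemma hz_tsum {a : ℝ} (ha : 0 < a) (ha' : a < 1) :
    hurwitzZetaOdd a 1 = ((∑' n, ft a 1 n : ℝ) : ℂ) := by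
  have h1 : Tendsto (fun s : ℝ => ∑' n, ft a s n) (𝓝[>] 1) (𝓝 (∑' n, ft a 1 n)) := by
    refine tendsto_tsum_of_dominated_convergence (bd_summable a) (fun n => ?_) ?_
    · refine tendsto_nhdsWithin_of_tendsto_nhds ?_
      have c : Continuous fun s : ℝ => ft a s n := by
        unfold ft
        have p1 : (0 : ℝ) < n + a := by positivity
        have p2 : (0 : ℝ) < n + 1 - a := by
          have : (0 : ℝ) ≤ n := Nat.cast_nonneg n
          linarith
        refine Continuous.div_const (Continuous.sub ?_ ?_) _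
        · exact continuous_const.div (Real.continuous_const_rpow p1.ne')
            fun s => (Real.rpow_pos_of_pos p1 s).ne'
        · exact continuous_const.div (Real.continuous_const_rpow p2.ne')
            fun s => (Real.rpow_pos_of_pos p2 s).ne'
      exact c.tendsto 1
    · have : Set.Ioc (1 : ℝ) 2 ∈ 𝓝[>] (1 : ℝ) := Ioc_mem_nhdsGT (by norm_num)
      filter_upwards [this] with s hs n
      rw [Real.norm_eq_abs]
      exact ft_le ha ha' hs.1.le hs.2 n
  have h2 : Tendsto (fun s : ℝ => hurwitzZetaOdd a (s : ℂ)) (𝓝[>] 1)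
      (𝓝 (hurwitzZetaOdd a ((1 : ℝ) : ℂ))) := by
    refine tendsto_nhdsWithin_of_tendsto_nhds ?_
    exact (((differentiable_hurwitzZetaOdd a).continuous.comp Complex.continuous_ofReal).tendsto 1)
  have h3 : Tendsto (fun s : ℝ => ((∑' n, ft a s n : ℝ) : ℂ)) (𝓝[>] 1)
      (𝓝 ((∑' n, ft a 1 n : ℝ) : ℂ)) := (Complex.continuous_ofReal.tendsto _).comp h1
  have h4 : (fun s : ℝ => hurwitzZetaOdd a (s : ℂ)) =ᶠ[𝓝[>] 1]
      fun s : ℝ => ((∑' n, ft a s n : ℝ) : ℂ) := by
    filter_upwards [self_mem_nhdsWithin] with s hs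
    have hs' : 1 < (s : ℂ).re := by rw [Complex.ofReal_re]; exact hs
    have := hasSum_nat_hurwitzZetaOdd_of_mem_Icc (a := a) ⟨ha.le, ha'.le⟩ hs'
    rw [Complex.ofReal_tsum, ← this.tsum_eq]
    exact tsum_congr fun n => (ft_cast ha ha' n).symm
  have h5 := tendsto_nhds_unique (h3.congr' h4.symm) h2
  rw [Complex.ofReal_one] at h5
  exact h5.symm

lemma compl_mem {a : ℝ} (ha : 0 < a) (ha' : a < 1) : (a : ℂ) ∈ Complex.integerComplement := by
  rintro ⟨n, hn⟩
  have hn' : (n : ℝ) = a := by exact_mod_cast hn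
  have h1 : (0 : ℝ) < n := by rw [hn']; exact ha
  have h2 : (n : ℝ) < 1 := by rw [hn']; exact ha'
  have h3 : 0 < n := by exact_mod_cast h1
  have h4 : n < 1 := by exact_mod_cast h2
  omega

/-- the value at `1` -/
lemma hz_cot {a : ℝ} (ha : 0 < a) (ha' : a < 1) :
    hurwitzZetaOdd a 1 = (π / 2) * Complex.cot (π * a) := by
  have hs : Summable (ft a 1) := Summable.of_norm_bounded (bd_summable a) fun n => by
    rw [Real.norm_eq_abs]; exact ft_le ha ha' le_rfl (by norm_num) n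
  have h1 : Tendsto (fun N : ℕ => ∑ n ∈ range N, ((ft a 1 n : ℝ) : ℂ)) atTop
      (𝓝 ((∑' n, ft a 1 n : ℝ) : ℂ)) := by
    have := (Complex.continuous_ofReal.tendsto _).comp hs.hasSum.tendsto_sum_nat
    refine this.congr fun N => ?_
    simp
  have h2 := tendsto_logDeriv_euler_cot_sub (compl_mem ha ha')
  have h3 : Tendsto (fun N : ℕ => (1 / (a : ℂ) - 1 / (N + a) +
      ∑ n ∈ range N, cotTerm (a : ℂ) n) / 2) atTop
      (𝓝 ((1 / (a : ℂ) - 0 + (π * Complex.cot (π * a) - 1 / a)) / 2)) := by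
    refine ((tendsto_const_nhds.sub ?_).add h2).div_const 2
    have e : Tendsto (fun N : ℕ => (1 / ((N : ℝ) + a))) atTop (𝓝 0) := by
      have t : Tendsto (fun N : ℕ => (N : ℝ) + a) atTop atTop :=
        tendsto_atTop_add_const_right _ _ tendsto_natCast_atTop_atTop
      refine t.inv_tendsto_atTop.congr fun N => ?_
      rw [Pi.inv_apply, one_div]
    have := (Complex.continuous_ofReal.tendsto _).comp e
    rw [Complex.ofReal_zero] at this
    refine this.congr fun N => ?_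
    simp
  have h4 : ∀ N : ℕ, (1 / (a : ℂ) - 1 / (N + a) + ∑ n ∈ range N, cotTerm (a : ℂ) n) / 2 =
      ∑ n ∈ range N, ((ft a 1 n : ℝ) : ℂ) := by
    intro N
    induction N with
    | zero => simp
    | succ N ih =>
      rw [sum_range_succ, sum_range_succ, ← ih]
      have p1 : ((N : ℂ) + a) ≠ 0 := by
        have : (0 : ℝ) < N + a := by positivity
        have h := this.ne'
        exact_mod_cast h
      have p2 : ((N : ℂ) + 1 - a) ≠ 0 := by
        have : (0 : ℝ) < N + 1 - a := by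
          have : (0 : ℝ) ≤ N := Nat.cast_nonneg N
          linarith
        have h := this.ne'
        exact_mod_cast h
      have p3 : ((N : ℂ) + 1 + a) ≠ 0 := by
        have : (0 : ℝ) < N + 1 + a := by positivity
        have h := this.ne'
        exact_mod_cast h
      have p4 : ((a : ℂ) - (N + 1)) = -(N + 1 - a) := by ring
      have p5 : ((a : ℂ) + (N + 1)) = N + 1 + a := by ring
      rw [ft, Real.rpow_one, Real.rpow_one, cotTerm, p4, p5, one_div_neg_eq_neg_one_div]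
      push_cast
      ring
  rw [hz_tsum ha ha']
  have h5 := tendsto_nhds_unique h1 (h3.congr h4)
  rw [h5]
  ring

end Pool.Agent.Helper52.Fermat
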