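import Pool.Agent.Helper52.Fermat.Saw1
import Pool.Agent.Helper29.Rohr.Fourier

set_option autoImplicit false

/-!
# `B_{1,χ} ≠ 0` for primitive odd characters
-/

namespace Pool.Agent.Helper52.Fermat

open Finset Filter HurwitzZeta
open Pool.Agent.Helper29.Rohr
open scoped Real Topology ZMod

variable {D : ℕ} [NeZero D]

lemma ee_exp (j : ZMod D) : ee j = Complex.exp (2 * Complex.I * (π * ((j.val / D : ℝ) : ℂ))) := by
  have h := ZMod.stdAddChar_coe (N := D) (j.val : ℤ)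
  rw [Int.cast_natCast, ZMod.natCast_zmod_val] at h
  unfold ee
  rw [h]
  congr 1
  push_cast
  ring

lemma hz_zero (s : ℂ) : hurwitzZetaOdd 0 s = 0 := by
  have h := hurwitzZetaOdd_neg 0 s
  rw [neg_zero] at h
  exact self_eq_neg.1 h

/-- Fourier coefficients of the sawtooth through the odd Hurwitz zeta function -/
lemma cf_hz (j : ZMod D) :
    cf j = -1 / (2 * D) + (Complex.I / (π * D)) * hurwitzZetaOdd (ZMod.toAddCircle j) 1 := by
  by_cases hj : j = 0
  · subst hj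
    rw [cf_zero, map_zero, hz_zero, mul_zero, add_zero]
  · have hk0 : (0 : ℝ) < j.val :=
      Nat.cast_pos.2 (Nat.pos_of_ne_zero (fun h0 => hj ((ZMod.val_eq_zero j).1 h0)))
    have hkD : (j.val : ℝ) < D := Nat.cast_lt.2 (ZMod.val_lt j)
    have hD : (0 : ℝ) < D := D_pos
    have hD' : (D : ℂ) ≠ 0 := D_ne
    have hpi : (π : ℂ) ≠ 0 := by exact_mod_cast Real.pi_ne_zero
    have h1 := hz_cot (a := (j.val : ℝ) / D) (by positivity) ((div_lt_one hD).2 hkD)
    rw [ZMod.toAddCircle_apply, h1, Complex.cot_eq_exp_ratio, ← ee_exp, cf_ne j hj]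
    have hz1 : ee j ≠ 1 := ee_ne_one j hj
    have hm : ee (-j) * ee j = 1 := by rw [← ee_add, neg_add_cancel, ee_zero]
    have hz0 : ee j ≠ 0 := right_ne_zero_of_mul_eq_one hm
    have hmi : ee (-j) = (ee j)⁻¹ := eq_inv_of_mul_eq_one_left hm
    rw [hmi]
    generalize ee j = z at *
    have h2 : 1 - z ≠ 0 := sub_ne_zero.2 (Ne.symm hz1)
    have h3 : z⁻¹ - 1 ≠ 0 := by
      intro h
      rw [sub_eq_zero] at h
      exact hz1 (by rw [← inv_inv z, h, inv_one])
    have h4 : z⁻¹ - 1 = (1 - z) / z := by field_simp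
    rw [h4]
    have hI := Complex.I_ne_zero
    field_simp
    ring

/-- `∑ χ(x) (x/D - 1/2)` -/
noncomputable def B1 (χ : DirichletCharacter ℂ D) : ℂ := ∑ x : ZMod D, χ x * (saw x : ℂ)

lemma gauss_ne {χ : DirichletCharacter ℂ D} (hχ : χ.IsPrimitive) :
    gaussSum χ ZMod.stdAddChar ≠ 0 := by
  intro h
  have h1 : 𝓕 (χ : ZMod D → ℂ) = 0 := by
    funext k
    rw [hχ.fourierTransform_eq_inv_mul_gaussSum, h, mul_zero]; rfl
  have h2 : (χ : ZMod D → ℂ) = 0 := by
    have := congrArg ZMod.dft.symm h1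
    rw [map_zero] at this
    rw [← this]
    exact (LinearEquiv.symm_apply_apply _ _).symm
  have h3 := congrFun h2 1
  rw [map_one] at h3
  exact one_ne_zero h3

lemma B1_eq {χ : DirichletCharacter ℂ D} (hχ : χ.IsPrimitive) (ho : χ.Odd) :
    B1 χ = (Complex.I / π) * gaussSum χ ZMod.stdAddChar * DirichletCharacter.LFunction χ⁻¹ 1 := by
  have hodd : (χ⁻¹).Odd := by
    unfold DirichletCharacter.Odd at *
    rw [MulChar.inv_apply_eq_inv', ho, inv_neg, inv_one]
  have hne : χ⁻¹ ≠ 1 := by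
    rintro h
    rw [DirichletCharacter.Odd, h] at hodd
    rw [MulChar.one_apply (by exact isUnit_neg_one)] at hodd
    norm_num at hodd
  have hL : DirichletCharacter.LFunction χ⁻¹ 1 =
      (D : ℂ)⁻¹ * ∑ j : ZMod D, χ⁻¹ j * hurwitzZetaOdd (ZMod.toAddCircle j) 1 := by
    rw [DirichletCharacter.LFunction, ZMod.LFunction_def_odd hodd.to_fun, Complex.cpow_neg_one]
  have h1 : ∀ j : ZMod D, ∑ x : ZMod D, χ x * ee (j * x) =
      χ⁻¹ j * gaussSum χ ZMod.stdAddChar := by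
    intro j
    have := hχ.fourierTransform_eq_inv_mul_gaussSum (-j)
    rw [neg_neg, ZMod.dft_apply] at this
    rw [← this]
    refine sum_congr rfl fun x _ => ?_
    rw [smul_eq_mul, mul_comm (χ x)]
    congr 2
    ring
  have h2 : B1 χ = ∑ j : ZMod D, cf j * (χ⁻¹ j * gaussSum χ ZMod.stdAddChar) := by
    unfold B1
    simp_rw [← h1, inversion, mul_sum]
    rw [sum_comm]
    refine sum_congr rfl fun j _ => sum_congr rfl fun x _ => ?_
    ring
  have h3 : ∑ j : ZMod D, χ⁻¹ j = 0 := MulChar.sum_eq_zero_of_ne_one hne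
  have hD' : (D : ℂ) ≠ 0 := D_ne
  have hpi : (π : ℂ) ≠ 0 := by exact_mod_cast Real.pi_ne_zero
  rw [h2, hL]
  simp_rw [cf_hz]
  have h4 : ∀ j : ZMod D, (-1 / (2 * (D : ℂ)) + Complex.I / (π * D) *
      hurwitzZetaOdd (ZMod.toAddCircle j) 1) * (χ⁻¹ j * gaussSum χ ZMod.stdAddChar) =
      (-1 / (2 * (D : ℂ)) * gaussSum χ ZMod.stdAddChar) * χ⁻¹ j +
      (Complex.I / (π * D) * gaussSum χ ZMod.stdAddChar) *
        (χ⁻¹ j * hurwitzZetaOdd (ZMod.toAddCircle j) 1) := fun j => by ring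
  rw [sum_congr rfl fun j _ => h4 j, sum_add_distrib, ← mul_sum, ← mul_sum, h3, mul_zero,
    zero_add]
  field_simp

/-- **Nonvanishing of `B_{1,χ}`, primitive case.** -/
theorem B1_ne_prim {χ : DirichletCharacter ℂ D} (hχ : χ.IsPrimitive) (ho : χ.Odd) :
    B1 χ ≠ 0 := by
  have hne : χ⁻¹ ≠ 1 := by
    intro h
    have h1 : χ = 1 := inv_eq_one.1 h
    rw [DirichletCharacter.Odd, h1, MulChar.one_apply (by exact isUnit_neg_one)] at ho
    norm_num at ho
  have hpi : (π : ℂ) ≠ 0 := by exact_mod_cast Real.pi_ne_zero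
  rw [B1_eq hχ ho]
  exact mul_ne_zero (mul_ne_zero (div_ne_zero Complex.I_ne_zero hpi) (gauss_ne hχ))
    (DirichletCharacter.LFunction_apply_one_ne_zero hne)

end Pool.Agent.Helper52.Fermat
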