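import Pool.Agent.Helper52.Fermat.Saw2

set_option autoImplicit false

/-!
# `B_{1,χ} ≠ 0` for odd characters of prime power level, and the sawtooth convolution
-/

namespace Pool.Agent.Helper52.Fermat

open Finset Filter HurwitzZeta
open Pool.Agent.Helper29.Rohr

section
variable {m : ℕ} [NeZero m]

lemma odd_ne_one {χ : DirichletCharacter ℂ m} (ho : χ.Odd) : χ ≠ 1 := by
  rintro rfl
  rw [DirichletCharacter.Odd, MulChar.one_apply (by exact isUnit_neg_one)] at ho
  norm_num at ho

/-- for prime power level, an odd character agrees with its primitive character everywhere -/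
lemma prim_apply (hm : IsPrimePow m) {χ : DirichletCharacter ℂ m} (ho : χ.Odd) (n : ℕ) :
    χ (n : ZMod m) = χ.primitiveCharacter (n : ZMod χ.conductor) := by
  obtain ⟨p, k, hp, hk, rfl⟩ := hm
  have hp' : p.Prime := hp.nat_prime
  obtain ⟨j, hj, hc⟩ := (Nat.dvd_prime_pow hp').1 χ.conductor_dvd_level
  have hj0 : j ≠ 0 := by
    rintro rfl
    rw [pow_zero] at hc
    exact odd_ne_one ho (χ.eq_one_iff_conductor_eq_one.2 hc)
  by_cases h : n.Coprime p
  · have h1 : IsCoprime (n : ℤ) ((p ^ k : ℕ) : ℤ) := Nat.isCoprime_iff_coprime.2 (h.pow_right k)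
    have := χ.primitiveCharacter_apply_of_isCoprime h1
    rw [Int.cast_natCast, Int.cast_natCast] at this
    exact this.symm
  · have h1 : ¬ IsUnit (n : ZMod (p ^ k)) := by
      rw [ZMod.isUnit_iff_coprime]
      intro h2
      exact h ((Nat.coprime_pow_right_iff (Nat.pos_of_ne_zero hk.ne') _ _).1 h2)
    have h2 : ¬ IsUnit (n : ZMod χ.conductor) := by
      rw [ZMod.isUnit_iff_coprime, hc]
      intro h2
      exact h ((Nat.coprime_pow_right_iff (Nat.pos_of_ne_zero hj0) _ _).1 h2)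
    rw [MulChar.map_nonunit _ h1, MulChar.map_nonunit _ h2]

lemma sum_zmod' {D : ℕ} [NeZero D] {M : Type*} [AddCommMonoid M] (g : ZMod D → M) :
    ∑ x : ZMod D, g x = ∑ k ∈ range D, g (k : ZMod D) := by
  rw [← sum_zmod (D := D) (fun k => g (k : ZMod D))]
  exact sum_congr rfl fun x _ => by rw [ZMod.natCast_zmod_val]

/-- `B1` as a sum over a range -/
lemma B1_range (χ : DirichletCharacter ℂ m) (hχ : χ ≠ 1) :
    B1 χ = (1 / (m : ℂ)) * ∑ k ∈ range m, χ (k : ZMod m) * (k : ℂ) := by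
  have h3 : ∑ j : ZMod m, χ j = 0 := MulChar.sum_eq_zero_of_ne_one hχ
  have e : B1 χ = (1 / (m : ℂ)) * (∑ x : ZMod m, χ x * (x.val : ℂ)) - (1 / 2) * ∑ x : ZMod m, χ x := by
    unfold B1
    rw [mul_sum, mul_sum, ← sum_sub_distrib]
    refine sum_congr rfl fun x _ => ?_
    unfold saw
    push_cast
    ring
  rw [e, h3, mul_zero, sub_zero, sum_zmod']
  congr 1
  refine sum_congr rfl fun k hk => ?_
  rw [ZMod.val_natCast_of_lt (mem_range.1 hk)]

/-- distribution -/
lemma sum_dist {d : ℕ} (ψ : ZMod d → ℂ) (h0 : ∑ k ∈ range d, ψ (k : ZMod d) = 0) (q : ℕ) :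
    ∑ k ∈ range (d * q), ψ (k : ZMod d) * (k : ℂ) =
      q * ∑ k ∈ range d, ψ (k : ZMod d) * (k : ℂ) := by
  induction q with
  | zero => simp
  | succ q ih =>
    rw [Nat.mul_succ, sum_range_add, ih]
    have : ∀ k : ℕ, ψ ((d * q + k : ℕ) : ZMod d) * ((d * q + k : ℕ) : ℂ) =
        (d * q : ℂ) * ψ (k : ZMod d) + ψ (k : ZMod d) * (k : ℂ) := by
      intro k
      have e : ((d * q + k : ℕ) : ZMod d) = (k : ZMod d) := by simp
      rw [e]; push_cast; ring
    rw [sum_congr rfl fun k _ => this k, sum_add_distrib, ← mul_sum, h0]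
    push_cast
    ring

theorem B1_ne (hm : IsPrimePow m) {χ : DirichletCharacter ℂ m} (ho : χ.Odd) : B1 χ ≠ 0 := by
  have hd0 : χ.conductor ≠ 0 := χ.conductor_ne_zero
  haveI : NeZero χ.conductor := ⟨hd0⟩
  obtain ⟨q, hq⟩ := χ.conductor_dvd_level
  have hodd : χ.primitiveCharacter.Odd := by
    have h1 : IsCoprime (-1 : ℤ) (m : ℤ) := isCoprime_one_left.neg_left
    have h2 := χ.primitiveCharacter_apply_of_isCoprime h1
    rw [Int.cast_neg, Int.cast_one, Int.cast_neg, Int.cast_one] at h2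
    rw [DirichletCharacter.Odd, h2, ho]
  have hne := B1_ne_prim χ.primitiveCharacter_isPrimitive hodd
  have h1 : B1 χ = B1 χ.primitiveCharacter := by
    rw [B1_range χ (odd_ne_one ho), B1_range _ (odd_ne_one hodd)]
    have h0 : ∑ k ∈ range χ.conductor, χ.primitiveCharacter (k : ZMod χ.conductor) = 0 := by
      rw [← sum_zmod' (D := χ.conductor) (fun x => χ.primitiveCharacter x)]
      exact MulChar.sum_eq_zero_of_ne_one (odd_ne_one hodd)
    have h2 := sum_dist (fun x => χ.primitiveCharacter x) h0 q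
    rw [← hq] at h2
    rw [sum_congr rfl fun k _ => by rw [prim_apply hm ho k]]
    have hm0 : (m : ℂ) ≠ 0 := D_ne
    have hc0 : (χ.conductor : ℂ) ≠ 0 := D_ne
    have hmq : (m : ℂ) = χ.conductor * q := by exact_mod_cast congrArg (Nat.cast : ℕ → ℂ) hq
    have hq0 : (q : ℂ) ≠ 0 := by
      intro h
      rw [h, mul_zero] at hmq
      exact hm0 hmq
    change 1 / (m : ℂ) * ∑ k ∈ range m, (fun x => χ.primitiveCharacter x)
      (k : ZMod χ.conductor) * (k : ℂ) = _
    rw [h2, hmq]
    field_simp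
  rw [h1]
  exact hne

end

end Pool.Agent.Helper52.Fermat
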